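import Pool.Agent.Helper92.ZH.Goals
import Pool.Agent.Helper29.BL.PS

/-!
# MP_a41896_nt, zero estimate of P3, packet HT2: heights from local inequalities with two polynomials
-/

set_option autoImplicit false

open MvPolynomial

namespace Pool.Agent.Helper26.ZH.HT2

open Height Height.AdmissibleAbsValues
open Pool.Agent.Helper29.BL Pool.Agent.Helper92.Ru

/-- Monotonicity of `PS`, with the inequality only at the places. -/
lemma PS_mono' {K : Type} [Field K] [AdmissibleAbsValues K] {f g : AbsoluteValue K ℝ → ℝ}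
    (hf : FS f) (hg : FS g)
    (h : ∀ v : AbsoluteValue K ℝ, v ∈ archAbsVal (K := K) ∨ v ∈ nonarchAbsVal (K := K) →
      f v ≤ g v) : PS f ≤ PS g := by
  unfold PS
  refine add_le_add ?_ ?_
  · exact Multiset.sum_map_le_sum_map _ _ fun v hv => h v (Or.inl hv)
  · exact finsum_le_finsum' hf hg fun v => h v.val (Or.inr v.property)

lemma cv_ne {K : Type} [Field K] {V : Type} {p : MvPolynomial V K} (hp : p ≠ 0) :
    (fun m : p.support => coeff m.1 p) ≠ 0 := by
  obtain ⟨m, hm⟩ := MvPolynomial.ne_zero_iff.mp hp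
  intro h
  have := congrFun h ⟨m, by rwa [MvPolynomial.mem_support_iff]⟩
  exact hm this

lemma logPH {K : Type} [Field K] [NumberField K] {V : Type} {p : MvPolynomial V K}
    (hp : p ≠ 0) : PS (fun v => Real.log (⨆ m : p.support, v (coeff m.1 p))) =
      Real.log (PH p) := by
  rw [PS_log_iSup (cv_ne hp), PH, logHeight_eq_log_mulHeight]

/-- **HT2**. -/
theorem t : Pool.Agent.Helper92.ZH.HT2 := by
  classical
  intro K _ _ V R g Q a b c hR hg hQ hc h
  have hcv := cv_ne hR
  have hFg : FS (fun v : AbsoluteValue K ℝ => Real.log (⨆ m : g.support, v (coeff m.1 g))) :=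
    FS_log_iSup (cv_ne hg)
  have hFQ : FS (fun v : AbsoluteValue K ℝ => Real.log (⨆ m : Q.support, v (coeff m.1 Q))) :=
    FS_log_iSup (cv_ne hQ)
  have hFc : FS (fun v : AbsoluteValue K ℝ => Real.log (cst v c)) := FS_log_cst c
  have h1 : PS (fun v => Real.log (⨆ m : R.support, v (coeff m.1 R))) ≤
      PS (fun v => Real.log (cst v c) + (a * Real.log (⨆ m : g.support, v (coeff m.1 g)) +
        b * Real.log (⨆ m : Q.support, v (coeff m.1 Q)))) := by
    refine PS_mono' (FS_log_iSup hcv)
      (hFc.add ((hFg.const_mul a).add (hFQ.const_mul b))) fun v hv => ?_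
    have hg0 : 0 < ⨆ m : g.support, v (coeff m.1 g) := iSup_abv_pos v (cv_ne hg)
    have hQ0 : 0 < ⨆ m : Q.support, v (coeff m.1 Q) := iSup_abv_pos v (cv_ne hQ)
    have hR0 : 0 < ⨆ m : R.support, v (coeff m.1 R) := iSup_abv_pos v hcv
    have hc0 : 0 < cst v c := cst_pos v hc
    obtain ⟨m0, hm0⟩ := MvPolynomial.ne_zero_iff.mp hR
    have : Nonempty R.support := ⟨⟨m0, by rwa [MvPolynomial.mem_support_iff]⟩⟩
    have h2 : (⨆ m : R.support, v (coeff m.1 R)) ≤
        cst v c * (⨆ m : g.support, v (coeff m.1 g)) ^ a *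
          (⨆ m : Q.support, v (coeff m.1 Q)) ^ b := ciSup_le fun m => h v hv m.1
    have h3 := Real.log_le_log hR0 h2
    rw [Real.log_mul (mul_pos hc0 (pow_pos hg0 _)).ne' (pow_pos hQ0 _).ne',
      Real.log_mul hc0.ne' (pow_pos hg0 _).ne', Real.log_pow, Real.log_pow] at h3
    linarith
  rw [logPH hR, PS_add hFc ((hFg.const_mul a).add (hFQ.const_mul b)),
    PS_add (hFg.const_mul a) (hFQ.const_mul b), PS_const_mul, PS_const_mul, logPH hg,
    logPH hQ] at h1
  have h4 := PS_log_cst (K := K) hc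
  rw [NumberField.totalWeight_eq_finrank] at h4
  linarith

end Pool.Agent.Helper26.ZH.HT2
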